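import Mathlib

set_option autoImplicit false

/-!
# The gap between the strong vertex span and the strong edge span

For every finite connected graph `σ_V ≤ σ_E + 1`, and a graph on six vertices has `σ_V = 2`,
`σ_E = 1`. Hence the largest possible value of `σ_V - σ_E` is `1`.

Idea of the upper bound: let two walkers visit all the vertices and stay at distance at least
`s + 1`. For an edge `xy` the first walker is at `x` at some time; at that time the second walker
waits while the first one goes to `y` and back. Meanwhile the distance is at least `s`.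
-/

namespace Pool.Agent.Results.MP_5796a1_co.SpanGap

open SimpleGraph

/-- `f` is a weak homomorphism from `G` to `H`: it maps an edge to an edge or to one vertex. -/
def IsWeakHom {U V : Type} (G : SimpleGraph U) (H : SimpleGraph V) (f : U → V) : Prop :=
  ∀ u v, G.Adj u v → f u = f v ∨ H.Adj (f u) (f v)

/-- `f` is a surjective weak homomorphism. -/
def IsSurj {U V : Type} (G : SimpleGraph U) (H : SimpleGraph V) (f : U → V) : Prop :=
  IsWeakHom G H f ∧ Function.Surjective f

/-- `f` is an edge surjective weak homomorphism: it is surjective and every edge `uv` of `H` is the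
image of an edge `xy` of `G`. -/
def IsEdgeSurj {U V : Type} (G : SimpleGraph U) (H : SimpleGraph V) (f : U → V) : Prop :=
  IsSurj G H f ∧ ∀ u v, H.Adj u v → ∃ x y, G.Adj x y ∧ f x = u ∧ f y = v

/-- The strong vertex span of `H`: the largest `k` such that there are a path `P` (on `n + 1`
vertices) and surjective weak homomorphisms `f`, `g` from `P` to `H` with
`d_H(f(u), g(u)) ≥ k` for all vertices `u` of `P`, i.e. with `m_P(f, g) ≥ k`. -/
noncomputable def vertexSpan {V : Type} (H : SimpleGraph V) : ℕ :=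
  sSup {k : ℕ | ∃ (n : ℕ) (f g : Fin (n + 1) → V), IsSurj (pathGraph (n + 1)) H f ∧
    IsSurj (pathGraph (n + 1)) H g ∧ ∀ u, k ≤ H.dist (f u) (g u)}

/-- The strong edge span of `H`: the same with edge surjective weak homomorphisms. -/
noncomputable def edgeSpan {V : Type} (H : SimpleGraph V) : ℕ :=
  sSup {k : ℕ | ∃ (n : ℕ) (f g : Fin (n + 1) → V), IsEdgeSurj (pathGraph (n + 1)) H f ∧
    IsEdgeSurj (pathGraph (n + 1)) H g ∧ ∀ u, k ≤ H.dist (f u) (g u)}

/-! ### The graph of configurations -/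

/-- Two pairs of positions are adjacent if each walker stays or goes to a neighbour. -/
def conf {V : Type} (H : SimpleGraph V) (s : ℕ) : SimpleGraph {p : V × V // s ≤ H.dist p.1 p.2} where
  Adj p q := p ≠ q ∧ (p.1.1 = q.1.1 ∨ H.Adj p.1.1 q.1.1) ∧ (p.1.2 = q.1.2 ∨ H.Adj p.1.2 q.1.2)
  symm := ⟨by
    rintro p q ⟨h1, h2, h3⟩
    exact ⟨h1.symm, h2.imp Eq.symm (fun h => h.symm), h3.imp Eq.symm (fun h => h.symm)⟩⟩
  loopless := ⟨fun p h => h.1 rfl⟩

/-- A detour to a neighbour and back can be inserted into a walk. -/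
theorem insert_dart {W : Type} {C : SimpleGraph W} {a b : W} (w : C.Walk a b) {c c' : W}
    (hc : c ∈ w.support) (h : C.Adj c c') :
    ∃ w' : C.Walk a b, (∀ d ∈ w.darts, d ∈ w'.darts) ∧ (∀ x ∈ w.support, x ∈ w'.support) ∧
      (∃ d ∈ w'.darts, d.fst = c ∧ d.snd = c') ∧ (∃ d ∈ w'.darts, d.fst = c' ∧ d.snd = c) := by
  classical
  refine ⟨(w.takeUntil c hc).append (Walk.cons h (Walk.cons h.symm (w.dropUntil c hc))), ?_, ?_, ?_, ?_⟩
  · intro d hd
    rw [← w.take_spec hc, Walk.darts_append, List.mem_append] at hd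
    rw [Walk.darts_append, List.mem_append]
    rcases hd with hd | hd
    · exact Or.inl hd
    · right
      rw [Walk.darts_cons, Walk.darts_cons]
      exact List.mem_cons_of_mem _ (List.mem_cons_of_mem _ hd)
  · intro x hx
    rw [← w.take_spec hc, Walk.mem_support_append_iff] at hx
    rw [Walk.mem_support_append_iff]
    rcases hx with hx | hx
    · exact Or.inl hx
    · right
      rw [Walk.support_cons, Walk.support_cons]
      exact List.mem_cons_of_mem _ (List.mem_cons_of_mem _ hx)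
  · refine ⟨⟨(c, c'), h⟩, ?_, rfl, rfl⟩
    rw [Walk.darts_append, List.mem_append]
    right
    rw [Walk.darts_cons]
    exact List.mem_cons_self
  · refine ⟨⟨(c', c), h.symm⟩, ?_, rfl, rfl⟩
    rw [Walk.darts_append, List.mem_append]
    right
    rw [Walk.darts_cons, Walk.darts_cons]
    exact List.mem_cons_of_mem _ List.mem_cons_self

/-- Finitely many detours can be inserted. -/
theorem insert_darts {W : Type} {C : SimpleGraph W} {a b : W} (w : C.Walk a b)
    (S : Finset (W × W)) (hS : ∀ p ∈ S, p.1 ∈ w.support ∧ C.Adj p.1 p.2) :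
    ∃ w' : C.Walk a b, (∀ x ∈ w.support, x ∈ w'.support) ∧
      ∀ p ∈ S, ∃ d ∈ w'.darts, d.fst = p.1 ∧ d.snd = p.2 := by
  classical
  induction S using Finset.induction_on with
  | empty => exact ⟨w, fun x hx => hx, by simp⟩
  | insert p S _ ih =>
    obtain ⟨w1, h1, h2⟩ := ih (fun q hq => hS q (Finset.mem_insert_of_mem hq))
    obtain ⟨h3, h4⟩ := hS p (Finset.mem_insert_self p S)
    obtain ⟨w2, h5, h6, h7, -⟩ := insert_dart w1 (h1 _ h3) h4
    refine ⟨w2, fun x hx => h6 x (h1 x hx), fun q hq => ?_⟩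
    rcases Finset.mem_insert.1 hq with rfl | hq
    · exact h7
    · obtain ⟨d, hd, hd'⟩ := h2 q hq
      exact ⟨d, h5 d hd, hd'⟩

/-- a sequence of consecutive equal or adjacent vertices is in the support of a walk -/
theorem exists_walk {W : Type} {C : SimpleGraph W} (n : ℕ) (c : ℕ → W)
    (hc : ∀ i < n, c i = c (i + 1) ∨ C.Adj (c i) (c (i + 1))) :
    ∃ w : C.Walk (c 0) (c n), ∀ i ≤ n, c i ∈ w.support := by
  induction n with
  | zero =>
    refine ⟨Walk.nil, fun i hi => ?_⟩
    obtain rfl : i = 0 := by omega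
    simp
  | succ n ih =>
    obtain ⟨w, hw⟩ := ih (fun i hi => hc i (by omega))
    rcases hc n (by omega) with h | h
    · refine ⟨w.copy rfl h, fun i hi => ?_⟩
      rw [Walk.support_copy]
      rcases Nat.lt_or_ge i (n + 1) with h' | h'
      · exact hw i (by omega)
      · obtain rfl : i = n + 1 := by omega
        rw [← h]
        exact hw n le_rfl
    · refine ⟨w.append (Walk.cons h Walk.nil), fun i hi => ?_⟩
      rw [Walk.mem_support_append_iff]
      rcases Nat.lt_or_ge i (n + 1) with h' | h'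
      · exact Or.inl (hw i (by omega))
      · obtain rfl : i = n + 1 := by omega
        right
        simp

/-- the positions along a walk in the graph of configurations -/
theorem conf_step {V : Type} {H : SimpleGraph V} {s : ℕ} {p q : {p : V × V // s ≤ H.dist p.1 p.2}}
    (h : (conf H s).Adj p q) :
    (p.1.1 = q.1.1 ∨ H.Adj p.1.1 q.1.1) ∧ (p.1.2 = q.1.2 ∨ H.Adj p.1.2 q.1.2) := h.2

theorem weakHom_of_step {V : Type} {H : SimpleGraph V} {n : ℕ} (F : ℕ → V)
    (hF : ∀ i < n, F i = F (i + 1) ∨ H.Adj (F i) (F (i + 1))) :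
    IsWeakHom (pathGraph (n + 1)) H (fun i : Fin (n + 1) => F i) := by
  intro u v huv
  rw [pathGraph_adj] at huv
  rcases huv with h | h
  · have := hF u (by omega)
    rw [h] at this
    exact this
  · have := hF v (by omega)
    rw [h] at this
    exact this.imp Eq.symm (fun h => h.symm)

/-- A walk of configurations in which every edge is traversed by both walkers. -/
theorem edgeSurj_of_walk {V : Type} {H : SimpleGraph V} {s : ℕ}
    {a b : {p : V × V // s ≤ H.dist p.1 p.2}} (w : (conf H s).Walk a b)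
    (h1 : ∀ v, ∃ p ∈ w.support, p.1.1 = v) (h2 : ∀ v, ∃ p ∈ w.support, p.1.2 = v)
    (h3 : ∀ u v, H.Adj u v → ∃ d ∈ w.darts, d.fst.1.1 = u ∧ d.snd.1.1 = v)
    (h4 : ∀ u v, H.Adj u v → ∃ d ∈ w.darts, d.fst.1.2 = u ∧ d.snd.1.2 = v) :
    ∃ (n : ℕ) (f g : Fin (n + 1) → V), IsEdgeSurj (pathGraph (n + 1)) H f ∧
      IsEdgeSurj (pathGraph (n + 1)) H g ∧ ∀ u, s ≤ H.dist (f u) (g u) := by
  have hstep : ∀ i < w.length, (conf H s).Adj (w.getVert i) (w.getVert (i + 1)) :=
    fun i hi => w.adj_getVert_succ hi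
  have hsupp : ∀ p ∈ w.support, ∃ i, i < w.length + 1 ∧ w.getVert i = p := by
    intro p hp
    obtain ⟨i, hi, hi'⟩ := Walk.mem_support_iff_exists_getVert.1 hp
    exact ⟨i, by omega, hi⟩
  have hdart : ∀ d ∈ w.darts, ∃ i < w.length, w.getVert i = d.fst ∧ w.getVert (i + 1) = d.snd := by
    intro d hd
    obtain ⟨i, hi, hi'⟩ := List.getElem_of_mem hd
    rw [Walk.length_darts] at hi
    refine ⟨i, hi, ?_⟩
    rw [← hi', Walk.darts_getElem_eq_getVert]
    exact ⟨rfl, rfl⟩
  refine ⟨w.length, fun i => (w.getVert i).1.1, fun i => (w.getVert i).1.2, ⟨⟨?_, ?_⟩, ?_⟩,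
    ⟨⟨?_, ?_⟩, ?_⟩, fun i => (w.getVert i).2⟩
  · exact weakHom_of_step (fun i => (w.getVert i).1.1) fun i hi => (conf_step (hstep i hi)).1
  · intro v
    obtain ⟨p, hp, hv⟩ := h1 v
    obtain ⟨i, hi, hi'⟩ := hsupp p hp
    exact ⟨⟨i, hi⟩, by simp only [hi', hv]⟩
  · intro u v huv
    obtain ⟨d, hd, hu, hv⟩ := h3 u v huv
    obtain ⟨i, hi, hi1, hi2⟩ := hdart d hd
    refine ⟨⟨i, by omega⟩, ⟨i + 1, by omega⟩, ?_, ?_, ?_⟩
    · rw [pathGraph_adj]; left; rfl
    · simp only [hi1, hu]
    · simp only [hi2, hv]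
  · exact weakHom_of_step (fun i => (w.getVert i).1.2) fun i hi => (conf_step (hstep i hi)).2
  · intro v
    obtain ⟨p, hp, hv⟩ := h2 v
    obtain ⟨i, hi, hi'⟩ := hsupp p hp
    exact ⟨⟨i, hi⟩, by simp only [hi', hv]⟩
  · intro u v huv
    obtain ⟨d, hd, hu, hv⟩ := h4 u v huv
    obtain ⟨i, hi, hi1, hi2⟩ := hdart d hd
    refine ⟨⟨i, by omega⟩, ⟨i + 1, by omega⟩, ?_, ?_, ?_⟩
    · rw [pathGraph_adj]; left; rfl
    · simp only [hi1, hu]
    · simp only [hi2, hv]

/-- **Upper bound.** If two walkers can visit all the vertices at distance at least `s + 1`, then they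
can traverse all the edges at distance at least `s`. -/
theorem edge_of_vertex {V : Type} [Finite V] {H : SimpleGraph V} (hH : H.Connected) {s n : ℕ}
    {f g : Fin (n + 1) → V} (hf : IsSurj (pathGraph (n + 1)) H f)
    (hg : IsSurj (pathGraph (n + 1)) H g) (hd : ∀ u, s + 1 ≤ H.dist (f u) (g u)) :
    ∃ (n : ℕ) (f g : Fin (n + 1) → V), IsEdgeSurj (pathGraph (n + 1)) H f ∧
      IsEdgeSurj (pathGraph (n + 1)) H g ∧ ∀ u, s ≤ H.dist (f u) (g u) := by
  classical
  have hlt : ∀ i : ℕ, min i n < n + 1 := fun i => by omega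
  let c : ℕ → {p : V × V // s ≤ H.dist p.1 p.2} := fun i =>
    ⟨(f ⟨min i n, hlt i⟩, g ⟨min i n, hlt i⟩), (Nat.le_succ s).trans (hd _)⟩
  have hadj : ∀ i, i < n → (pathGraph (n + 1)).Adj ⟨min i n, hlt i⟩ ⟨min (i + 1) n, hlt (i + 1)⟩ := by
    intro i hi
    rw [pathGraph_adj]
    left
    show min i n + 1 = min (i + 1) n
    omega
  obtain ⟨w, hw⟩ := exists_walk (C := conf H s) n c (by
    intro i hi
    by_cases heq : c i = c (i + 1)
    · exact Or.inl heq
    · exact Or.inr ⟨heq, hf.1 _ _ (hadj i hi), hg.1 _ _ (hadj i hi)⟩)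
  have hfc : ∀ i : Fin (n + 1), (c i).1 = (f i, g i) := by
    intro i
    have : (⟨min i n, hlt i⟩ : Fin (n + 1)) = i := by
      apply Fin.ext
      show min (i : ℕ) n = i
      omega
    show (f ⟨min i n, hlt i⟩, g ⟨min i n, hlt i⟩) = (f i, g i)
    rw [this]
  have hcs : ∀ i : Fin (n + 1), c i ∈ w.support := fun i => hw i (by omega)
  have : Fintype {p : V × V // s ≤ H.dist p.1 p.2} := Fintype.ofFinite _
  obtain ⟨w', h1, h2⟩ := insert_darts w
    (Finset.univ.filter fun pq : {p : V × V // s ≤ H.dist p.1 p.2} × {p : V × V // s ≤ H.dist p.1 p.2} =>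
      pq.1 ∈ w.support ∧ (conf H s).Adj pq.1 pq.2) (fun p hp => (Finset.mem_filter.1 hp).2)
  have hclose : ∀ u v x : V, H.Adj u v → s + 1 ≤ H.dist u x → s ≤ H.dist v x := by
    intro u v x huv hx
    have h3 := hH.dist_triangle (u := u) (v := v) (w := x)
    rw [dist_eq_one_iff_adj.2 huv] at h3
    omega
  refine edgeSurj_of_walk w' ?_ ?_ ?_ ?_
  · intro v
    obtain ⟨i, hi⟩ := hf.2 v
    exact ⟨c i, h1 _ (hcs i), by rw [hfc]; exact hi⟩
  · intro v
    obtain ⟨i, hi⟩ := hg.2 v
    exact ⟨c i, h1 _ (hcs i), by rw [hfc]; exact hi⟩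
  · intro u v huv
    obtain ⟨i, hi⟩ := hf.2 u
    have hx : s + 1 ≤ H.dist u (g i) := by rw [← hi]; exact hd i
    let q : {p : V × V // s ≤ H.dist p.1 p.2} := ⟨(v, g i), hclose u v (g i) huv hx⟩
    have hA : (conf H s).Adj (c i) q := by
      refine ⟨fun h => huv.ne ?_, ?_, ?_⟩
      · have h5 := congrArg (fun z => z.1.1) h
        simp only [hfc, hi] at h5
        exact h5
      · right
        rw [hfc]
        show H.Adj (f i) v
        rw [hi]
        exact huv
      · left
        rw [hfc]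
    obtain ⟨d, hd1, hd2, hd3⟩ := h2 (c i, q) (Finset.mem_filter.2 ⟨Finset.mem_univ _, hcs i, hA⟩)
    refine ⟨d, hd1, ?_, ?_⟩
    · rw [hd2]
      show (c i).1.1 = u
      rw [hfc]
      exact hi
    · rw [hd3]
  · intro u v huv
    obtain ⟨i, hi⟩ := hg.2 u
    have hx : s + 1 ≤ H.dist u (f i) := by rw [← hi, dist_comm]; exact hd i
    let q : {p : V × V // s ≤ H.dist p.1 p.2} :=
      ⟨(f i, v), by rw [dist_comm]; exact hclose u v (f i) huv hx⟩
    have hA : (conf H s).Adj (c i) q := by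
      refine ⟨fun h => huv.ne ?_, ?_, ?_⟩
      · have h5 := congrArg (fun z => z.1.2) h
        simp only [hfc, hi] at h5
        exact h5
      · left
        rw [hfc]
      · right
        rw [hfc]
        show H.Adj (g i) v
        rw [hi]
        exact huv
    obtain ⟨d, hd1, hd2, hd3⟩ := h2 (c i, q) (Finset.mem_filter.2 ⟨Finset.mem_univ _, hcs i, hA⟩)
    refine ⟨d, hd1, ?_, ?_⟩
    · rw [hd2]
      show (c i).1.2 = u
      rw [hfc]
      exact hi
    · rw [hd3]

theorem dist_bound {V : Type} [Fintype V] (H : SimpleGraph V) (u v : V) :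
    H.dist u v ≤ Fintype.card V := by
  by_cases h : H.Reachable u v
  · obtain ⟨p, hp⟩ := h.exists_walk_length_eq_dist
    have := (p.isPath_of_length_eq_dist hp).length_lt
    omega
  · rw [dist_eq_zero_of_not_reachable h]
    exact Nat.zero_le _

theorem edgeSpan_bdd {V : Type} [Fintype V] (H : SimpleGraph V) :
    BddAbove {k : ℕ | ∃ (n : ℕ) (f g : Fin (n + 1) → V), IsEdgeSurj (pathGraph (n + 1)) H f ∧
      IsEdgeSurj (pathGraph (n + 1)) H g ∧ ∀ u, k ≤ H.dist (f u) (g u)} := by
  refine ⟨Fintype.card V, ?_⟩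
  rintro k ⟨n, f, g, -, -, h⟩
  exact (h 0).trans (dist_bound H _ _)

theorem vertexSpan_bdd {V : Type} [Fintype V] (H : SimpleGraph V) :
    BddAbove {k : ℕ | ∃ (n : ℕ) (f g : Fin (n + 1) → V), IsSurj (pathGraph (n + 1)) H f ∧
      IsSurj (pathGraph (n + 1)) H g ∧ ∀ u, k ≤ H.dist (f u) (g u)} := by
  refine ⟨Fintype.card V, ?_⟩
  rintro k ⟨n, f, g, -, -, h⟩
  exact (h 0).trans (dist_bound H _ _)

theorem vertexSpan_le {V : Type} [Fintype V] {H : SimpleGraph V} (hH : H.Connected) :
    vertexSpan H ≤ edgeSpan H + 1 := by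
  rcases Nat.eq_zero_or_pos (vertexSpan H) with h | h
  · omega
  · obtain ⟨s, hs⟩ : ∃ s, vertexSpan H = s + 1 := ⟨vertexSpan H - 1, by omega⟩
    have hne : {k : ℕ | ∃ (n : ℕ) (f g : Fin (n + 1) → V), IsSurj (pathGraph (n + 1)) H f ∧
      IsSurj (pathGraph (n + 1)) H g ∧ ∀ u, k ≤ H.dist (f u) (g u)}.Nonempty := by
      by_contra hcon
      rw [Set.not_nonempty_iff_eq_empty] at hcon
      unfold vertexSpan at h
      rw [hcon] at h
      simp at h
    obtain ⟨n, f, g, hf, hg, hd⟩ := Nat.sSup_mem hne (vertexSpan_bdd H)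
    change ∀ u, vertexSpan H ≤ H.dist (f u) (g u) at hd
    rw [hs] at hd
    have := le_csSup (edgeSpan_bdd H) (edge_of_vertex hH hf hg hd)
    change s ≤ edgeSpan H at this
    omega

/-! ### The example -/

/-- the graph on six vertices with the nine edges `01, 03, 04, 05, 12, 13, 14, 23, 24` -/
def ex : SimpleGraph (Fin 6) where
  Adj u v := (u, v) ∈ ([(0, 1), (0, 3), (0, 4), (0, 5), (1, 2), (1, 3), (1, 4), (2, 3), (2, 4)] :
      List (Fin 6 × Fin 6)) ∨
    (v, u) ∈ ([(0, 1), (0, 3), (0, 4), (0, 5), (1, 2), (1, 3), (1, 4), (2, 3), (2, 4)] :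
      List (Fin 6 × Fin 6))
  symm := ⟨fun _ _ h => h.symm⟩
  loopless := ⟨by decide⟩

instance : DecidableRel ex.Adj := fun u v => by unfold ex; infer_instance

theorem ex_connected : ex.Connected := by
  have h : ∀ v : Fin 6, ex.Reachable 0 v := by
    have h1 : ex.Reachable 0 1 := (show ex.Adj 0 1 by decide).reachable
    have h3 : ex.Reachable 0 3 := (show ex.Adj 0 3 by decide).reachable
    have h4 : ex.Reachable 0 4 := (show ex.Adj 0 4 by decide).reachable
    have h5 : ex.Reachable 0 5 := (show ex.Adj 0 5 by decide).reachable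
    have h2 : ex.Reachable 0 2 := h1.trans (show ex.Adj 1 2 by decide).reachable
    intro v
    fin_cases v
    · exact Reachable.refl _
    · exact h1
    · exact h2
    · exact h3
    · exact h4
    · exact h5
  exact (connected_iff _).2 ⟨fun u v => (h u).symm.trans (h v), ⟨0⟩⟩

theorem two_le_dist {u v : Fin 6} : 2 ≤ ex.dist u v ↔ u ≠ v ∧ ¬ ex.Adj u v := by
  constructor
  · intro h
    constructor
    · rintro rfl
      rw [dist_self] at h
      omega
    · intro h'
      rw [dist_eq_one_iff_adj.2 h'] at h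
      omega
  · rintro ⟨h1, h2⟩
    have h3 := ex_connected.pos_dist_of_ne h1
    have h4 : ex.dist u v ≠ 1 := fun h => h2 (dist_eq_one_iff_adj.1 h)
    omega

/-- the first walker -/
def F0 : Fin 9 → Fin 6 := ![1, 4, 2, 2, 3, 0, 5, 5, 5]

/-- the second walker -/
def G0 : Fin 9 → Fin 6 := ![5, 5, 5, 0, 4, 2, 2, 1, 3]

theorem two_le_vertexSpan : 2 ≤ vertexSpan ex := by
  refine le_csSup (vertexSpan_bdd ex) ⟨8, F0, G0, ⟨?_, ?_⟩, ⟨?_, ?_⟩, ?_⟩
  · have h : ∀ u v : Fin 9, ((u : ℕ) + 1 = v ∨ (v : ℕ) + 1 = u) → F0 u = F0 v ∨ ex.Adj (F0 u) (F0 v) := by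
      decide
    intro u v huv
    rw [pathGraph_adj] at huv
    exact h u v huv
  · unfold Function.Surjective
    decide
  · have h : ∀ u v : Fin 9, ((u : ℕ) + 1 = v ∨ (v : ℕ) + 1 = u) → G0 u = G0 v ∨ ex.Adj (G0 u) (G0 v) := by
      decide
    intro u v huv
    rw [pathGraph_adj] at huv
    exact h u v huv
  · unfold Function.Surjective
    decide
  · intro u
    rw [two_le_dist]
    revert u
    decide

theorem edgeSpan_le_one : edgeSpan ex ≤ 1 := by
  unfold edgeSpan
  apply csSup_le'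
  rintro k ⟨n, f, g, hf, hg, hd⟩
  by_contra hk
  have hd2 : ∀ u, f u ≠ g u ∧ ¬ ex.Adj (f u) (g u) := by
    intro u
    rw [← two_le_dist]
    exact le_trans (by omega) (hd u)
  obtain ⟨x, y, hxy, h0, h1⟩ := hf.2 0 1 (by decide)
  have h2 := hd2 x
  have h3 := hd2 y
  have h4 := hg.1.1 x y hxy
  rw [h0] at h2
  rw [h1] at h3
  have key : ∀ a b : Fin 6, (0 ≠ a ∧ ¬ ex.Adj 0 a) → (1 ≠ b ∧ ¬ ex.Adj 1 b) →
      (a = b ∨ ex.Adj a b) → False := by decide
  exact key _ _ h2 h3 h4

/-- **The maximum of `σ_V(H) - σ_E(H)` over all finite connected graphs `H` is `1`.** -/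
theorem result : IsGreatest {k : ℤ | ∃ (V : Type) (_ : Fintype V) (H : SimpleGraph V),
    H.Connected ∧ k = (vertexSpan H : ℤ) - (edgeSpan H : ℤ)} 1 := by
  constructor
  · refine ⟨Fin 6, inferInstance, ex, ex_connected, ?_⟩
    have h1 := two_le_vertexSpan
    have h2 := edgeSpan_le_one
    have h3 := vertexSpan_le ex_connected
    omega
  · rintro k ⟨V, _, H, hH, rfl⟩
    have := vertexSpan_le hH
    omega

end Pool.Agent.Results.MP_5796a1_co.SpanGap
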